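import Pool.Agent.W921.VP.DefsB

set_option autoImplicit false

/-!
Project VP, third part: intermediate statements, and the definitions for the conjecture of Martin.
-/

namespace Pool.Agent.W921.VP

open FirstOrder Set
open FirstOrder.Language (Theory BoundedFormula)

/-! ### Intermediate statements -/

/-- UPB: the ultrapower substructures give the models. -/
def S_UPB : Prop :=
  ∀ (L : FirstOrder.Language.{0, 0}), Countable L.Symbols → L.IsRelational → ∀ (T : L.Theory), Goedel T →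
    ∀ S : L.Structure ℕ, Mods S T → ∃ Z : ℕ → ℕ → ℕ → ℕ,
      ∀ (Z' : ℕ → ℕ → ℕ → ℕ), (∀ k, ∃ l, Z' l = Z k) →
      ∀ (M : Type) (S' : L.Structure M) (U : Ultrafilter ℕ) (r : M → ℕ → ℕ) (c : ℕ → M),
      (∀ (n : ℕ) (R : L.Relations n) (s : Fin n → M),
        S'.RelMap R s ↔ ∀ᶠ i in (U : Filter ℕ), S.RelMap R (fun j => r (s j) i)) →
      (∀ m m', (∀ᶠ i in (U : Filter ℕ), r m i = r m' i) → m = m') →
      (∀ n, ∀ᶠ i in (U : Filter ℕ), r (c n) i = n) →
      (∀ k m m', ∃ m'', ∀ᶠ i in (U : Filter ℕ), r m'' i = Z' k (r m i) (r m' i)) →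
      ∀ (N : Type) (S'' : L.Structure N) (j : range c → N), Nonempty N →
        Covers S' (range c) S'' j → Mods S'' T

/-- UNQ: uniqueness of roles and copies. -/
def S_UNQ : Prop :=
  ∀ (J : Type),
    (∀ (q : Cp J) (a : El J) (z z' : J), q.u ≠ q.v → Role q a z → Role q a z' → z = z') ∧
    (∀ (q : Cp J) (a b : El J) (z : J), q.u ≠ q.v → q.m ≠ q.m' → Role q a z → Role q b z → a = b) ∧
    ∀ (q q' : Cp J) (a b : El J) (z z' : J), Child q a → Child q' b → Role q b z → Role q' a z' →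
      q = q'

/-- EMB: any two points outside `K` are in a copy. -/
def S_EMB : Prop :=
  ∀ (L : FirstOrder.Language.{0, 0}) [L.IsRelational] (M : Type) (S : L.Structure M)
    (K : Set M) (t : Out K → Out K), (∀ m : Out K, t m ≠ m ∧ Sim S K m (t m)) →
    ∀ pl : Plan L K, PlanOk S K pl → ∀ x y : El (Out K), x ≠ y →
      ∃ e : M → K ⊕ El (Out K), Emb S (NStr S pl t) e ∧ (∀ k : K, e k = Sum.inl k) ∧
        Sum.inr x ∈ range e ∧ Sum.inr y ∈ range e

/-- ORD. -/
def S_ORD : Prop :=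
  ∀ (J : Type), ∃ lt : El J → El J → Prop, (∀ a b, a ≠ b → (lt a b ↔ ¬ lt b a)) ∧
    ∀ i u v m m' z, lt (El.y i) (El.new u v m m' z)

/-- CTB. -/
def S_CTB : Prop :=
  ∀ (L : FirstOrder.Language.{0, 0}) (U : Type), Countable U → ∀ (F : (ℕ → Bool) → L.Structure U)
    (k : ℕ) (y : Fin k → U),
    (∀ x x' (e : U ≃ U), (∀ (n : ℕ) (R : L.Relations n) (s : Fin n → U),
      (F x).RelMap R s ↔ (F x').RelMap R (fun i => e (s i))) → (∀ i, e (y i) = y i) → x = x') →
    ∀ x, {x' | Isom (F x') (F x)}.Countable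

/-- FAM: a family of plans gives a perfect family of models. -/
def S_FAM : Prop :=
  ∀ (L : FirstOrder.Language.{0, 0}) [L.IsRelational], Countable L.Symbols → ∀ (T : L.Theory)
    (M : Type) (S : L.Structure M) (K : Set M) (t : Out K → Out K), Base T S K t →
    ∀ pl : (ℕ → Bool) → Plan L K, (∀ x, PlanOk S K (pl x)) →
    (∀ x x', (pl x).tyY = (pl x').tyY ∧ (pl x).lt = (pl x').lt) →
    (∀ i j v, IsClopen {x | (pl x).pY i j = v}) →
    (∀ (n : ℕ) (R : L.Relations n) (s : Fin n → K ⊕ El (Out K)), IsClopen {x | (pl x).P n R s}) →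
    ∀ k : ℕ, (∀ x x' (e : (K ⊕ El (Out K)) ≃ (K ⊕ El (Out K))),
      (∀ (n : ℕ) (R : L.Relations n) (s : Fin n → K ⊕ El (Out K)),
        (NStr S (pl x) t).RelMap R s ↔ (NStr S (pl x') t).RelMap R (fun i => e (s i))) →
      (∀ i < k, e (Sum.inr (El.y i)) = Sum.inr (El.y i)) → x = x') → PerfectFam T

section rc

variable {L : FirstOrder.Language.{0, 0}} {M N : Type}

/-- Blow up the structure `S` along the colouring `c`. -/
@[reducible] def recol [L.IsRelational] (S : L.Structure M) (c : N → M) : L.Structure N where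
  funMap := fun f => isEmptyElim f
  RelMap := fun {n} R s => ∃ s' : Fin n → M, (∀ i j, s i = s j ↔ s' i = s' j) ∧
    (∀ i, Tw S R (s' i) (c (s i))) ∧ S.RelMap R s'

/-- The colouring `c` respects the sizes of the classes. -/
def Mat (S : L.Structure M) (c : N → M) : Prop :=
  ∀ (F : Finset (Sym L)) (x : M), Set.encard {u : N | TwF S F (c u) x} =
    Set.encard {y : M | TwF S F y x}

end rc

/-- RC. -/
def S_RC : Prop :=
  ∀ (L : FirstOrder.Language.{0, 0}) [L.IsRelational] (M N : Type) (S : L.Structure M) (c : N → M),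
    Countable M → Countable N → Mat S c → ∀ F : Finset (Sym L),
      ∃ e : N ≃ M, (∀ u, TwF S F (e u) (c u)) ∧ FIso (recol S c) S F e

/-- TWD: `Tw` is definable. -/
def S_TWD : Prop :=
  ∀ (L : FirstOrder.Language.{0, 0}) [L.IsRelational] (n : ℕ) (R : L.Relations n),
    ∃ φ : L.BoundedFormula Empty 2, ∀ (M : Type) (S : L.Structure M) (x y : M),
      (@BoundedFormula.Realize L M S Empty 2 φ Empty.elim ![x, y] ↔ Tw S R x y)

section prof

variable {L : FirstOrder.Language.{0, 0}} {M N : Type}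

/-- The tuples `b`, `b'` have the same profile, where sizes of classes are compared up to `k`. -/
structure Prof (S : L.Structure M) (S' : L.Structure N) (F : Finset (Sym L)) (k : ℕ) {m : ℕ}
    (b : Fin m → M) (b' : Fin m → N) : Prop where
  eq : ∀ i j, b i = b j ↔ b' i = b' j
  tw : ∀ i j, TwF S F (b i) (b j) ↔ TwF S' F (b' i) (b' j)
  rel : ∀ R ∈ F, ∀ v : Fin R.1 → Fin m,
    S.RelMap R.2 (fun i => b (v i)) ↔ S'.RelMap R.2 (fun i => b' (v i))
  size : ∀ i, ∀ l ≤ k, ((l : ℕ∞) ≤ Set.encard {x | TwF S F x (b i)} ↔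
    (l : ℕ∞) ≤ Set.encard {x | TwF S' F x (b' i)})
  cov : (∀ x, ∃ i, TwF S F x (b i)) ↔ ∀ x, ∃ i, TwF S' F x (b' i)

/-- The tuples have the same first-order type. -/
def SameTp (S : L.Structure M) (S' : L.Structure N) {n : ℕ} (a : Fin n → M) (a' : Fin n → N) : Prop :=
  ∀ φ : L.BoundedFormula Empty n, @BoundedFormula.Realize L M S Empty n φ Empty.elim a ↔
    @BoundedFormula.Realize L N S' Empty n φ Empty.elim a'

end prof

/-- PR1: the profile of a suitable tuple determines the finite reduct. -/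
def S_PR1 : Prop :=
  ∀ (L : FirstOrder.Language.{0, 0}) (S : L.Structure ℕ) (F : Finset (Sym L)),
    (∀ R ∈ F, FinInd S R) → ∀ (n : ℕ) (a : Fin n → ℕ), ∃ (m : ℕ) (b : Fin m → ℕ),
      ∀ (S' : L.Structure ℕ) (a' : Fin n → ℕ), (∀ R ∈ F, FinInd S' R) → ∃ k : ℕ,
        ∀ b' : Fin m → ℕ, Prof S S' F k (Fin.append a b) (Fin.append a' b') →
          ∃ e : ℕ ≃ ℕ, (∀ i, e (a i) = a' i) ∧ FIso S S' F e

/-- PR2: profiles are first-order. -/
def S_PR2 : Prop :=
  ∀ (L : FirstOrder.Language.{0, 0}) [L.IsRelational] (S S' : L.Structure ℕ) (n : ℕ)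
    (a a' : Fin n → ℕ), SameTp S S' a a' → ∀ (F : Finset (Sym L)) (k m : ℕ) (b : Fin m → ℕ),
    ∃ b' : Fin m → ℕ, Prof S S' F k (Fin.append a b) (Fin.append a' b')

/-- FOT. -/
def S_FOT : Prop :=
  ∀ (L : FirstOrder.Language.{0, 0}), L.IsRelational → ∀ (S S' : L.Structure ℕ) (n : ℕ)
    (a a' : Fin n → ℕ), (∀ R, FinInd S R) → (∀ R, FinInd S' R) → SameTp S S' a a' →
    ∀ F : Finset (Sym L), ∃ e : ℕ ≃ ℕ, (∀ i, e (a i) = a' i) ∧ FIso S S' F e

/-! ### The conjecture of Martin -/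

section martin

variable {L : FirstOrder.Language.{0, 0}} {M N : Type}

/-- `p` is the complete type of a tuple of a countable model of `T`. -/
def IsTp (T : L.Theory) {n : ℕ} (p : Set (L.BoundedFormula Empty n)) : Prop :=
  ∃ (S : L.Structure ℕ) (a : Fin n → ℕ), Mods S T ∧
    p = {φ | @BoundedFormula.Realize L ℕ S Empty n φ Empty.elim a}

/-- The formulas of `L_1(T)` in `n` free variables: `tp p v` is the conjunction of the formulas
`φ(x_{v 0}, x_{v 1}, ...)` with `φ` in the complete type `p`. -/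
inductive Fm (T : L.Theory) : ℕ → Type
  | fo {n : ℕ} (φ : L.BoundedFormula Empty n) : Fm T n
  | tp {n k : ℕ} (p : Set (L.BoundedFormula Empty k)) (hp : IsTp T p) (v : Fin k → Fin n) : Fm T n
  | not {n : ℕ} (φ : Fm T n) : Fm T n
  | and {n : ℕ} (φ ψ : Fm T n) : Fm T n
  | all {n : ℕ} (φ : Fm T (n + 1)) : Fm T n

/-- Satisfaction of formulas of `L_1(T)`. -/
def Fm.Sat {T : L.Theory} (S : L.Structure M) : {n : ℕ} → Fm T n → (Fin n → M) → Prop
  | _, .fo φ, a => @BoundedFormula.Realize L M S Empty _ φ Empty.elim a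
  | _, .tp p _ v, a => ∀ φ ∈ p, @BoundedFormula.Realize L M S Empty _ φ Empty.elim (fun i => a (v i))
  | _, .not φ, a => ¬ φ.Sat S a
  | _, .and φ ψ, a => φ.Sat S a ∧ ψ.Sat S a
  | _, .all φ, a => ∀ x : M, φ.Sat S (Fin.snoc a x)

/-- The structures satisfy the same sentences of `L_1(T)`. -/
def Eq1 (T : L.Theory) (S : L.Structure M) (S' : L.Structure N) : Prop :=
  ∀ φ : Fm T 0, φ.Sat S Fin.elim0 ↔ φ.Sat S' Fin.elim0

/-- Less than continuum many countable models. -/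
def Few (T : L.Theory) : Prop :=
  ¬ ∃ f : (ℕ → Bool) → L.Structure ℕ, (∀ x, Mods (f x) T) ∧ ∀ x y, Isom (f x) (f y) → x = y

/-- The conclusion of the conjecture of Martin for `T`. -/
def Martin (T : L.Theory) : Prop :=
  ∀ (M : Type) (S : L.Structure M) (S' : L.Structure ℕ), Countable M → Mods S' T → Eq1 T S S' →
    Isom S S'

end martin

/-- NI: isolation and twins are properties of the first-order type. -/
def S_NI : Prop :=
  ∀ (L : FirstOrder.Language.{0, 0}) [L.IsRelational] (M N : Type) (S : L.Structure M)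
    (S' : L.Structure N) (n : ℕ) (a : Fin n → M) (a' : Fin n → N), SameTp S S' a a' →
    (∀ i, NonIso S (a i) ↔ NonIso S' (a' i)) ∧ ∀ i j, TwA S (a i) (a j) ↔ TwA S' (a' i) (a' j)

/-- QU. -/
def S_QU : Prop :=
  ∀ (L : FirstOrder.Language.{0, 0}), L.IsRelational → ∀ (S S' : L.Structure ℕ) (n : ℕ)
    (a a' : Fin n → ℕ), (∀ R, FinInd S R) → (∀ R, FinInd S' R) → SameTp S S' a a' →
    ∀ (i : Fin n) (b b' : ℕ), TwA S b (a i) → TwA S' b' (a' i) → (∀ j, b ≠ a j) → (∀ j, b' ≠ a' j) →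
      SameTp S S' (Fin.snoc a b : Fin (n + 1) → ℕ) (Fin.snoc a' b' : Fin (n + 1) → ℕ)

/-- SIZ. -/
def S_SIZ : Prop :=
  ∀ (L : FirstOrder.Language.{0, 0}), Countable L.Symbols → L.IsRelational → ∀ T : L.Theory,
    ∀ S S' : L.Structure ℕ, Mods S T → Mods S' T → (∀ R, FinInd S R) → (∀ R, FinInd S' R) →
    Eq1 T S S' → ∀ (n : ℕ) (a : Fin n → ℕ), (∀ i, NonIso S (a i)) →
      (∀ i j, i ≠ j → ¬ TwA S (a i) (a j)) → (∀ x, NonIso S x → ∃ i, TwA S x (a i)) →
      ∀ K : ℕ, ∃ a' : Fin n → ℕ, SameTp S S' a a' ∧ ∀ i, ∀ l ≤ K,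
        ((l : ℕ∞) ≤ Set.encard {x | TwA S x (a i)} ↔ (l : ℕ∞) ≤ Set.encard {x | TwA S' x (a' i)})

/-- MAR: the core of the conjecture of Martin. -/
def S_MAR : Prop :=
  ∀ (L : FirstOrder.Language.{0, 0}), Countable L.Symbols → L.IsRelational → ∀ T : L.Theory,
    (∀ S S' : L.Structure ℕ, Mods S T → Mods S' T →
      SameTp S S' (Fin.elim0 : Fin 0 → ℕ) (Fin.elim0 : Fin 0 → ℕ)) →
    (∀ S : L.Structure ℕ, Mods S T → ∀ R, FinInd S R) →
    (∀ S : L.Structure ℕ, Mods S T → ∃ (n : ℕ) (a : Fin n → ℕ), (∀ i, NonIso S (a i)) ∧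
      (∀ i j, i ≠ j → ¬ TwA S (a i) (a j)) ∧ ∀ x, NonIso S x → ∃ i, TwA S x (a i)) →
    ∀ S S' : L.Structure ℕ, Mods S T → Mods S' T → Eq1 T S S' → Isom S S'

end Pool.Agent.W921.VP
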