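import Pool.Agent.W921.VP.Defs

set_option autoImplicit false

/-!
Project VP, second part: every theory is coded by a theory with axioms `∀∀∀∃` and only unary and
binary relation symbols.
-/

namespace Pool.Agent.W921.VP

open FirstOrder Set
open FirstOrder.Language (Theory BoundedFormula)

/-- Relation symbols of the language of tuples: `len n` (tuples of length `n`), `sat n φ` (tuples of
length `n` satisfying `φ`), `sub n k v` (the second tuple is the first one composed with `v`). -/
inductive TRel (L : FirstOrder.Language.{0, 0}) : ℕ → Type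
  | len (n : ℕ) : TRel L 1
  | sat (n : ℕ) (φ : L.BoundedFormula Empty n) : TRel L 1
  | sub (n k : ℕ) (v : Fin k → Fin n) : TRel L 2

/-- The language of tuples. -/
def TL (L : FirstOrder.Language.{0, 0}) : FirstOrder.Language.{0, 0} := ⟨fun _ => Empty, TRel L⟩

section

variable {L : FirstOrder.Language.{0, 0}} {X : Type}

def Len (N : (TL L).Structure X) (n : ℕ) (x : X) : Prop :=
  N.RelMap (TRel.len n : (TL L).Relations 1) ![x]

def Sat (N : (TL L).Structure X) (n : ℕ) (φ : L.BoundedFormula Empty n) (x : X) : Prop :=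
  N.RelMap (TRel.sat n φ : (TL L).Relations 1) ![x]

def Sub (N : (TL L).Structure X) (n k : ℕ) (v : Fin k → Fin n) (x y : X) : Prop :=
  N.RelMap (TRel.sub n k v : (TL L).Relations 2) ![x, y]

/-- The formula `x_i = x_j`. -/
def eqF (n : ℕ) (i j : Fin n) : L.BoundedFormula Empty n :=
  BoundedFormula.equal (Language.Term.var (Sum.inr i)) (Language.Term.var (Sum.inr j))

/-- The formula `R(x_{v 0}, x_{v 1}, ...)`. -/
def relF (n : ℕ) {k : ℕ} (R : L.Relations k) (v : Fin k → Fin n) : L.BoundedFormula Empty n :=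
  BoundedFormula.rel R fun j => Language.Term.var (Sum.inr (v j))

/-- The axioms of structures of tuples of models of `T`. -/
structure Ax (T : L.Theory) (N : (TL L).Structure X) : Prop where
  len_disj : ∀ m n x, m ≠ n → Len N m x → ¬ Len N n x
  sub_len : ∀ n k v x y, Sub N n k v x y → Len N n x ∧ Len N k y
  sat_len : ∀ n φ x, Sat N n φ x → Len N n x
  sub_fun : ∀ n k v x y z, Sub N n k v x y → Sub N n k v x z → y = z
  sub_comp : ∀ n k l v w x y z, Sub N n k v x y → Sub N k l w y z → Sub N n l (v ∘ w) x z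
  sub_tot : ∀ n k v x, Len N n x → ∃ y, Sub N n k v x y
  ext : ∀ n x y, Len N n x → Len N n y → x ≠ y →
    ∃ z, ∃ i : Fin n, Sub N n 1 (fun _ => i) x z ∧ ¬ Sub N n 1 (fun _ => i) y z
  amalg : ∀ n x y, Len N n x → Len N 1 y →
    ∃ z, Sub N (n + 1) n Fin.castSucc z x ∧ Sub N (n + 1) 1 (fun _ => Fin.last n) z y
  nil : ∃ x, Len N 0 x
  inf : ∀ n, ∃ x, Len N n x ∧ ∀ i j : Fin n, i ≠ j → ¬ Sat N n (eqF n i j) x
  sat_fal : ∀ n x, ¬ Sat N n BoundedFormula.falsum x
  sat_imp : ∀ n φ ψ x, Len N n x → (Sat N n (BoundedFormula.imp φ ψ) x ↔ (Sat N n φ x → Sat N n ψ x))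
  sat_all : ∀ n φ x y, Sub N (n + 1) n Fin.castSucc y x → Sat N n (BoundedFormula.all φ) x →
    Sat N (n + 1) φ y
  sat_ex : ∀ n φ x, Len N n x → ¬ Sat N n (BoundedFormula.all φ) x →
    ∃ y, Sub N (n + 1) n Fin.castSucc y x ∧ ¬ Sat N (n + 1) φ y
  sat_eq : ∀ n (i j : Fin n) x y z, Sub N n 1 (fun _ => i) x y → Sub N n 1 (fun _ => j) x z →
    (Sat N n (eqF n i j) x ↔ y = z)
  sat_rel : ∀ n k (R : L.Relations k) (v : Fin k → Fin n) x y, Sub N n k v x y →
    (Sat N n (relF n R v) x ↔ Sat N k (relF k R id) y)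
  sat_T : ∀ σ ∈ T, ∀ x, Len N 0 x → Sat N 0 σ x

/-- The structure of tuples of `S`. -/
@[reducible] def tup {M : Type} (S : L.Structure M) : (TL L).Structure (Σ n, Fin n → M) where
  funMap := fun f => Empty.elim f
  RelMap := fun R => match R with
    | TRel.len n => fun s => (s 0).1 = n
    | TRel.sat n φ => fun s => ∃ a : Fin n → M, s 0 = ⟨n, a⟩ ∧ @BoundedFormula.Realize L M S Empty n φ Empty.elim a
    | TRel.sub n k v => fun s => ∃ a : Fin n → M, s 0 = ⟨n, a⟩ ∧ s 1 = ⟨k, a ∘ v⟩

/-- The points of the decoded structure. -/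
abbrev Pt (N : (TL L).Structure X) : Type := {x : X // Len N 1 x}

/-- `x` is a tuple with the entries `a`. -/
def Ent (N : (TL L).Structure X) {n : ℕ} (x : X) (a : Fin n → Pt N) : Prop :=
  Len N n x ∧ ∀ i : Fin n, Sub N n 1 (fun _ => i) x (a i)

/-- The decoded structure. -/
@[reducible] def dec [L.IsRelational] (N : (TL L).Structure X) : L.Structure (Pt N) where
  funMap := fun f => isEmptyElim f
  RelMap := fun {k} R a => ∃ x, Ent N x a ∧ Sat N k (relF k R id) x

/-- Points that are not tuples. -/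
def junk (N : (TL L).Structure X) : Set X := {x | ∀ n, ¬ Len N n x}

end

/-- SYN: the axioms are sentences `∀^a ∃^b`. -/
def S_SYN : Prop :=
  ∀ (L : FirstOrder.Language.{0, 0}), L.IsRelational → ∀ (T : L.Theory) (a b : ℕ), 3 ≤ a → 1 ≤ b →
    ∃ T' : (TL L).Theory, (∀ σ ∈ T', Pre 0 a b (σ : (TL L).BoundedFormula Empty 0)) ∧
      ∀ N : (TL L).Structure ℕ, Mods N T' ↔ Ax T N

/-- TUP. -/
def S_TUP : Prop :=
  ∀ (L : FirstOrder.Language.{0, 0}) [L.IsRelational] (T : L.Theory) (S : L.Structure ℕ),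
    Mods S T → Ax T (tup S) ∧ Isom S (dec (tup S))

/-- DEC: truth in the decoded structure. -/
def S_DEC : Prop :=
  ∀ (L : FirstOrder.Language.{0, 0}) [L.IsRelational] (T : L.Theory) (X : Type)
    (N : (TL L).Structure X), Ax T N →
    (∀ (n : ℕ) (a : Fin n → Pt N), ∃! x, Ent N x a) ∧
    (∀ (n : ℕ) (x : X), Len N n x → ∃ a : Fin n → Pt N, Ent N x a) ∧
    (∀ (n : ℕ) (x : X) (a : Fin n → Pt N) (φ : L.BoundedFormula Empty n), Ent N x a →
      (Sat N n φ x ↔ @BoundedFormula.Realize L (Pt N) (dec N) Empty n φ Empty.elim a)) ∧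
    Mods (dec N) T ∧ Infinite (Pt N)

/-- ISO. -/
def S_ISO : Prop :=
  ∀ (L : FirstOrder.Language.{0, 0}) [L.IsRelational] (T : L.Theory) (X Y : Type)
    (N : (TL L).Structure X) (N' : (TL L).Structure Y), Countable X → Countable Y →
    Ax T N → Ax T N' →
    (Isom N N' → Isom (dec N) (dec N')) ∧
    (Isom (dec N) (dec N') → (junk N).encard = (junk N').encard → Isom N N')

/-- TOP: a perfect family of structures of tuples gives a perfect family of models. -/
def S_TOP : Prop :=
  ∀ (L : FirstOrder.Language.{0, 0}), Countable L.Symbols → L.IsRelational → ∀ (T : L.Theory)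
    (f : (ℕ → Bool) → (TL L).Structure ℕ), (∀ x, Ax T (f x)) →
    (∀ x y, Isom (f x) (f y) → x = y) →
    (∀ (n : ℕ) (R : (TL L).Relations n) (a : Fin n → ℕ), IsClopen {x | (f x).RelMap R a}) →
    PerfectFam T

/-- Q1: Vaught's conjecture for all theories in countable relational languages. -/
def Q1 : Prop :=
  ∀ (L : FirstOrder.Language.{0, 0}), Countable L.Symbols → L.IsRelational → ∀ T : L.Theory, Dich T

/-- Vaught's conjecture for theories with axioms `∀^a ∃^b` in languages with unary and binary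
relation symbols. -/
def VC2 (a b : ℕ) : Prop :=
  ∀ (L : FirstOrder.Language.{0, 0}), Countable L.Symbols → L.IsRelational →
    (∀ n, n ≠ 1 → n ≠ 2 → IsEmpty (L.Relations n)) → ∀ T : L.Theory,
    (∀ σ ∈ T, Pre 0 a b (σ : L.BoundedFormula Empty 0)) → Dich T

/-- COM: completeness. -/
def S_COM : Prop := ∀ a b, 3 ≤ a → 1 ≤ b → VC2 a b → Q1

end Pool.Agent.W921.VP
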