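import Pool.Agent.W921.VP.DefsD

set_option autoImplicit false

/-! COM: assembly of the completeness part. -/

namespace Pool.Agent.W921.VP

open FirstOrder Set
open FirstOrder.Language (BoundedFormula)

section iso

variable {L : FirstOrder.Language.{0, 0}} {M N P : Type}

theorem Isom.symm {S : L.Structure M} {S' : L.Structure N} (h : Isom S S') : Isom S' S := by
  obtain ⟨e, he⟩ := h
  refine ⟨e.symm, fun n R s => ?_⟩
  rw [he n R]
  have : (fun i => e (e.symm (s i))) = s := funext fun i => e.apply_symm_apply _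
  rw [this]

theorem Isom.trans {S : L.Structure M} {S' : L.Structure N} {S'' : L.Structure P} (h : Isom S S')
    (h' : Isom S' S'') : Isom S S'' := by
  obtain ⟨e, he⟩ := h
  obtain ⟨e', he'⟩ := h'
  refine ⟨e.trans e', fun n R s => ?_⟩
  rw [he n R, he' n R]
  exact Iff.rfl

/-- Transport of a structure. -/
@[reducible] def move [L.IsRelational] (S : L.Structure M) (e : M ≃ N) : L.Structure N where
  funMap := fun f => isEmptyElim f
  RelMap := fun R s => S.RelMap R (fun i => e.symm (s i))

theorem move_rel [L.IsRelational] (S : L.Structure M) (e : M ≃ N) (n : ℕ) (R : L.Relations n)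
    (s : Fin n → M) : S.RelMap R s ↔ (move S e).RelMap R (fun i => e (s i)) := by
  show _ ↔ S.RelMap R (fun i => e.symm (e (s i)))
  have : (fun i => e.symm (e (s i))) = s := funext fun i => e.symm_apply_apply _
  rw [this]

theorem isom_move [L.IsRelational] (S : L.Structure M) (e : M ≃ N) : Isom S (move S e) :=
  ⟨e, fun n R s => move_rel S e n R s⟩

end iso

section tl

variable {L : FirstOrder.Language.{0, 0}} {X Y : Type}

theorem Ax.move {T : L.Theory} {N : (TL L).Structure X} {N' : (TL L).Structure Y} (e : X ≃ Y)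
    (he : ∀ (n : ℕ) (R : (TL L).Relations n) (s : Fin n → X),
      N.RelMap R s ↔ N'.RelMap R (fun i => e (s i))) (h : Ax T N) : Ax T N' := by
  have v1 : ∀ y : Y, (fun i => e ((![e.symm y] : Fin 1 → X) i)) = ![y] := by
    intro y; funext i
    have : i = 0 := Subsingleton.elim _ _
    subst this
    exact e.apply_symm_apply y
  have v2 : ∀ y z : Y, (fun i => e ((![e.symm y, e.symm z] : Fin 2 → X) i)) = ![y, z] := by
    intro y z; funext i
    refine Fin.cases ?_ (fun j => ?_) i
    · exact e.apply_symm_apply y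
    · have : j = 0 := Subsingleton.elim _ _
      subst this
      exact e.apply_symm_apply z
  have hl : ∀ n y, Len N' n y ↔ Len N n (e.symm y) := by
    intro n y
    have := he 1 (TRel.len n : (TL L).Relations 1) ![e.symm y]
    rw [v1] at this
    exact this.symm
  have hs : ∀ n φ y, Sat N' n φ y ↔ Sat N n φ (e.symm y) := by
    intro n φ y
    have := he 1 (TRel.sat n φ : (TL L).Relations 1) ![e.symm y]
    rw [v1] at this
    exact this.symm
  have hu : ∀ n k v y z, Sub N' n k v y z ↔ Sub N n k v (e.symm y) (e.symm z) := by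
    intro n k v y z
    have := he 2 (TRel.sub n k v : (TL L).Relations 2) ![e.symm y, e.symm z]
    rw [v2] at this
    exact this.symm
  have hx : ∀ {P : Y → Prop}, (∃ x : X, P (e x)) → ∃ y, P y := fun ⟨x, h⟩ => ⟨e x, h⟩
  constructor
  · intro m n x h1; simp only [hl]; exact h.len_disj m n _ h1
  · intro n k v x y; simp only [hl, hu]; exact h.sub_len n k v _ _
  · intro n φ x; simp only [hl, hs]; exact h.sat_len n φ _
  · intro n k v x y z; simp only [hu]
    intro h1 h2
    exact e.symm.injective (h.sub_fun n k v _ _ _ h1 h2)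
  · intro n k l v w x y z; simp only [hu]; exact h.sub_comp n k l v w _ _ _
  · intro n k v x; simp only [hl, hu]
    intro h1
    obtain ⟨y, hy⟩ := h.sub_tot n k v _ h1
    exact ⟨e y, by rw [e.symm_apply_apply]; exact hy⟩
  · intro n x y; simp only [hl, hu]
    intro h1 h2 h3
    obtain ⟨z, i, h4, h5⟩ := h.ext n _ _ h1 h2 (fun h => h3 (e.symm.injective h))
    exact ⟨e z, i, by rw [e.symm_apply_apply]; exact ⟨h4, h5⟩⟩
  · intro n x y; simp only [hl, hu]
    intro h1 h2
    obtain ⟨z, h4, h5⟩ := h.amalg n _ _ h1 h2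
    exact ⟨e z, by rw [e.symm_apply_apply]; exact ⟨h4, h5⟩⟩
  · simp only [hl]
    obtain ⟨x, hx⟩ := h.nil
    exact ⟨e x, by rw [e.symm_apply_apply]; exact hx⟩
  · intro n; simp only [hl, hs]
    obtain ⟨x, hx⟩ := h.inf n
    exact ⟨e x, by rw [e.symm_apply_apply]; exact hx⟩
  · intro n x; simp only [hs]; exact h.sat_fal n _
  · intro n φ ψ x; simp only [hl, hs]; exact h.sat_imp n φ ψ _
  · intro n φ x y; simp only [hs, hu]; exact h.sat_all n φ _ _
  · intro n φ x; simp only [hl, hs, hu]
    intro h1 h2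
    obtain ⟨z, h4, h5⟩ := h.sat_ex n φ _ h1 h2
    exact ⟨e z, by rw [e.symm_apply_apply]; exact ⟨h4, h5⟩⟩
  · intro n i j x y z; simp only [hs, hu]
    intro h1 h2
    rw [h.sat_eq n i j _ _ _ h1 h2]
    exact e.symm.injective.eq_iff
  · intro n k R v x y; simp only [hs, hu]; exact h.sat_rel n k R v _ _
  · intro σ hσ x; simp only [hl, hs]; exact h.sat_T σ hσ _

end tl

theorem tl_facts (L : FirstOrder.Language.{0, 0}) (hL : Countable L.Symbols) :
    Countable (TL L).Symbols ∧ (TL L).IsRelational ∧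
      ∀ n, n ≠ 1 → n ≠ 2 → IsEmpty ((TL L).Relations n) := by
  have hcf : ∀ n, Countable (L.BoundedFormula Empty n) := by
    intro n
    have h3 : Cardinal.mk (Σ n, L.BoundedFormula Empty n) ≤ Cardinal.aleph0 := by
      refine BoundedFormula.card_le.trans ?_
      refine max_le le_rfl ?_
      rw [Cardinal.mk_eq_zero Empty]
      simp only [Cardinal.lift_id, zero_add]
      exact Cardinal.mk_le_aleph0
    have h4 : Countable (Σ n, L.BoundedFormula Empty n) := Cardinal.mk_le_aleph0_iff.1 h3
    exact (sigma_mk_injective (β := fun n => L.BoundedFormula Empty n) (i := n)).countable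
  have hTr : (TL L).IsRelational := fun n => inferInstanceAs (IsEmpty Empty)
  have hTc : Countable (TL L).Symbols := by
    have hF : Countable (Σ n, (TL L).Functions n) := by
      have : ∀ n, IsEmpty ((TL L).Functions n) := fun n => hTr n
      infer_instance
    have hR : Countable (Σ n, (TL L).Relations n) := by
      have : ∀ n, Countable ((TL L).Relations n) := by
        intro n
        let F : (ℕ ⊕ (Σ n, L.BoundedFormula Empty n)) ⊕ (Σ n k, Fin k → Fin n) →
          (Σ n, TRel L n) := fun u => match u with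
            | Sum.inl (Sum.inl n) => ⟨1, TRel.len n⟩
            | Sum.inl (Sum.inr ⟨n, φ⟩) => ⟨1, TRel.sat n φ⟩
            | Sum.inr ⟨n, k, v⟩ => ⟨2, TRel.sub n k v⟩
        have hFs : Function.Surjective F := by
          rintro ⟨n, R⟩
          cases R with
          | len n => exact ⟨Sum.inl (Sum.inl n), rfl⟩
          | sat n φ => exact ⟨Sum.inl (Sum.inr ⟨n, φ⟩), rfl⟩
          | sub n k v => exact ⟨Sum.inr ⟨n, k, v⟩, rfl⟩
        have : Countable (Σ n, TRel L n) := hFs.countable
        exact (sigma_mk_injective (β := fun n => TRel L n) (i := n)).countable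
      infer_instance
    exact inferInstanceAs (Countable ((Σ n, (TL L).Functions n) ⊕ Σ n, (TL L).Relations n))
  have hTa : ∀ n, n ≠ 1 → n ≠ 2 → IsEmpty ((TL L).Relations n) := by
    intro n h1 h2
    refine ⟨fun R => ?_⟩
    have h : ∀ m, TRel L m → m = n → False := by
      intro m R hm
      cases R with
      | len _ => exact h1 hm.symm
      | sat _ _ => exact h1 hm.symm
      | sub _ _ _ => exact h2 hm.symm
    exact h n R rfl
  exact ⟨hTc, hTr, hTa⟩

theorem com_core (h2 : S_TUP) (h3 : S_DEC) (h4 : S_ISO) (h5 : S_TOP)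
    (L : FirstOrder.Language.{0, 0}) (hL : Countable L.Symbols) (hr : L.IsRelational)
    (T : L.Theory) (T' : (TL L).Theory) (hM : ∀ N : (TL L).Structure ℕ, Mods N T' ↔ Ax T N)
    (hD : Dich T') : Dich T := by
  classical
  have hTr : (TL L).IsRelational := (tl_facts L hL).2.1
  rcases hD with ⟨g, hg⟩ | ⟨f, hf1, hf2, hf3⟩
  · left
    -- transport the decoded structures to ℕ
    have hG : ∀ n, Ax T (g n) → ∃ S : L.Structure ℕ, Isom (dec (g n)) S := by
      intro n hn
      obtain ⟨-, -, -, -, hinf⟩ := h3 L T ℕ (g n) hn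
      have e : Nonempty (Pt (g n) ≃ ℕ) := nonempty_equiv_of_countable
      obtain ⟨e⟩ := e
      exact ⟨Pool.Agent.W921.VP.move (dec (g n)) e, isom_move _ e⟩
    have hne : Nonempty (L.Structure ℕ) := ⟨⟨fun f => isEmptyElim f, fun _ _ => False⟩⟩
    obtain ⟨S0⟩ := hne
    have hG' : ∀ n, ∃ S : L.Structure ℕ, Ax T (g n) → Isom (dec (g n)) S := by
      intro n
      by_cases h : Ax T (g n)
      · obtain ⟨S, hS⟩ := hG n h
        exact ⟨S, fun _ => hS⟩
      · exact ⟨S0, fun h' => absurd h' h⟩
    choose G hG2 using hG'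
    refine ⟨G, fun S hS => ?_⟩
    obtain ⟨hA, hI⟩ := h2 L T S hS
    have e : Nonempty ((Σ n, Fin n → ℕ) ≃ ℕ) := by
      have : Infinite (Σ n, Fin n → ℕ) :=
        Infinite.of_injective (fun k : ℕ => (⟨k, fun _ => 0⟩ : Σ n, Fin n → ℕ)) (by
          intro k l hkl
          exact congrArg Sigma.fst hkl)
      exact nonempty_equiv_of_countable
    obtain ⟨e⟩ := e
    have hA' : Ax T (Pool.Agent.W921.VP.move (tup S) e) :=
      Ax.move e (fun n R s => move_rel (tup S) e n R s) hA
    obtain ⟨n, hn⟩ := hg _ ((hM _).2 hA')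
    obtain ⟨e2, he2⟩ := hn
    have hAn : Ax T (g n) := Ax.move e2 he2 hA'
    refine ⟨n, (hI.trans ?_).trans (hG2 n hAn)⟩
    have hc : Countable (Σ n, Fin n → ℕ) := inferInstance
    exact (h4 L T _ _ (tup S) (g n) hc inferInstance hA hAn).1
      ((isom_move (tup S) e).trans ⟨e2, he2⟩)
  · right
    exact h5 L hL hr T f (fun x => (hM _).1 (hf1 x)) hf2 hf3

theorem com (h1 : S_SYN) (h2 : S_TUP) (h3 : S_DEC) (h4 : S_ISO) (h5 : S_TOP) : S_COM := by
  intro a b ha hb hV L hL hr T
  obtain ⟨hTc, hTr, hTa⟩ := tl_facts L hL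
  obtain ⟨T', hT', hM⟩ := h1 L hr T a b ha hb
  exact com_core h2 h3 h4 h5 L hL hr T T' hM (hV (TL L) hTc hTr hTa T' hT')

theorem com3 (h1 : S_SYN2) (h2 : S_TUP) (h3 : S_DEC) (h4 : S_ISO) (h5 : S_TOP) (hV : VC3) :
    Q1 := by
  intro L hL hr T
  obtain ⟨hTc, hTr, hTa⟩ := tl_facts L hL
  obtain ⟨T', hT', hM⟩ := h1 L hr T
  exact com_core h2 h3 h4 h5 L hL hr T T' hM (hV (TL L) hTc hTr hTa T' hT')

end Pool.Agent.W921.VP
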