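import Mathlib

set_option autoImplicit false

/-!
Project VP: Vaught's conjecture (perfect-set form) for first-order theories by quantifier prefix.
Definitions and statements of the parts. All languages are countable and relational.
-/

namespace Pool.Agent.W921.VP

open FirstOrder Set MeasureTheory
open FirstOrder.Language (Theory BoundedFormula)

/-! ### Generalities -/

section gen

variable {L : FirstOrder.Language.{0, 0}}

/-- The structure `S` is a model of `T`. -/
def Mods {M : Type} (S : L.Structure M) (T : L.Theory) : Prop := @Theory.Model L M S T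

/-- Isomorphism of relational structures. -/
def Isom {M N : Type} (S : L.Structure M) (S' : L.Structure N) : Prop :=
  ∃ e : M ≃ N, ∀ (n : ℕ) (R : L.Relations n) (s : Fin n → M),
    S.RelMap R s ↔ S'.RelMap R (fun i => e (s i))

/-- Perfectly many models. -/
def PerfectFam (T : L.Theory) : Prop :=
  ∃ f : (ℕ → Bool) → L.Structure ℕ, (∀ x, Mods (f x) T) ∧ (∀ x y, Isom (f x) (f y) → x = y) ∧
    ∀ (n : ℕ) (R : L.Relations n) (a : Fin n → ℕ), IsClopen {x | (f x).RelMap R a}

/-- Countably many models. -/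
def CountFam (T : L.Theory) : Prop :=
  ∃ g : ℕ → L.Structure ℕ, ∀ S : L.Structure ℕ, Mods S T → ∃ n, Isom S (g n)

def Dich (T : L.Theory) : Prop := CountFam T ∨ PerfectFam T

/-- `Pre c a b φ`: the formula `φ` is `∃^c ∀^a ∃^b ψ` with `ψ` quantifier-free. -/
inductive Pre : ℕ → ℕ → ℕ → {n : ℕ} → L.BoundedFormula Empty n → Prop
  | qf {n : ℕ} {ψ : L.BoundedFormula Empty n} : ψ.IsQF → Pre 0 0 0 ψ
  | ex {b n : ℕ} {ψ : L.BoundedFormula Empty (n + 1)} : Pre 0 0 b ψ → Pre 0 0 (b + 1) ψ.ex
  | all {a b n : ℕ} {ψ : L.BoundedFormula Empty (n + 1)} : Pre 0 a b ψ → Pre 0 (a + 1) b ψ.all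
  | wit {c a b n : ℕ} {ψ : L.BoundedFormula Empty (n + 1)} : Pre c a b ψ → Pre (c + 1) a b ψ.ex

/-- All sentences of `T` are of the form `∃* ∀^a ∃*` with `a ≤ 2`. -/
def Goedel (T : L.Theory) : Prop := ∀ σ ∈ T, ∃ c a b, a ≤ 2 ∧ Pre c a b (σ : L.BoundedFormula Empty 0)

end gen

/-! ### CC and SM: descriptive set theory -/

/-- CC. A continuous family in which every isomorphism type occurs countably often gives a
perfect family. -/
def S_CC : Prop :=
  ∀ (L : FirstOrder.Language.{0, 0}), Countable L.Symbols → L.IsRelational → ∀ (T : L.Theory) (U : Type),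
    Countable U → Infinite U → ∀ F : (ℕ → Bool) → L.Structure U, (∀ x, Mods (F x) T) →
    (∀ (n : ℕ) (R : L.Relations n) (a : Fin n → U), IsClopen {x | (F x).RelMap R a}) →
    (∀ x, {y | Isom (F y) (F x)}.Countable) → PerfectFam T

/-- SM. -/
def S_SM : Prop :=
  ∀ (X : Type) [TopologicalSpace X] [PolishSpace X] [MeasurableSpace X] [BorelSpace X]
    (B : Set X) (θ : X → ℕ → Bool), MeasurableSet B → Measurable θ → ¬ (θ '' B).Countable →
    ∃ h : (ℕ → Bool) → X, Continuous h ∧ (∀ x, h x ∈ B) ∧ Function.Injective (fun x => θ (h x))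

/-! ### Pairs `K ⊆ M` with twins -/

section base

variable {L : FirstOrder.Language.{0, 0}} {M N : Type}

/-- `m` and `m'` have the same atomic type over `K` (`none` stands for `m`, `m'`). -/
def Sim (S : L.Structure M) (K : Set M) (m m' : M) : Prop :=
  ∀ (n : ℕ) (R : L.Relations n) (p : Fin n → Option K),
    S.RelMap R (fun i => (p i).elim m Subtype.val) ↔ S.RelMap R (fun i => (p i).elim m' Subtype.val)

def Emb (S : L.Structure M) (S' : L.Structure N) (e : M → N) : Prop :=
  Function.Injective e ∧ ∀ (n : ℕ) (R : L.Relations n) (s : Fin n → M),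
    S.RelMap R s ↔ S'.RelMap R (fun i => e (s i))

/-- Any two points of `N` are in the image of an embedding of `M` that extends `j`. -/
def Covers (S : L.Structure M) (K : Set M) (S' : L.Structure N) (j : K → N) : Prop :=
  ∀ x y : N, ∃ e : M → N, Emb S S' e ∧ (∀ k : K, e k = j k) ∧ x ∈ range e ∧ y ∈ range e

/-- The points outside `K`. -/
abbrev Out (K : Set M) : Type := {m : M // m ∉ K}

structure Base (T : L.Theory) (S : L.Structure M) (K : Set M) (t : Out K → Out K) : Prop where
  cnt : Countable M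
  out : Nonempty (Out K)
  tw : ∀ m : Out K, t m ≠ m ∧ Sim S K m (t m)
  wit : ∀ (N : Type) (S' : L.Structure N) (j : K → N), Nonempty N → Covers S K S' j → Mods S' T

end base

/-- ULT: a countable substructure of an ultrapower of `S`, closed under countably many binary
functions and under a twin function. -/
def S_ULT : Prop :=
  ∀ (L : FirstOrder.Language.{0, 0}), Countable L.Symbols → L.IsRelational → ∀ (S : L.Structure ℕ)
    (Z : ℕ → ℕ → ℕ → ℕ) (f : ℕ → ℕ), Function.Injective f →
    ∃ (M : Type) (S' : L.Structure M) (U : Ultrafilter ℕ) (r : M → ℕ → ℕ) (c : ℕ → M) (t : M → M),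
      Countable M ∧
      (∀ (n : ℕ) (R : L.Relations n) (s : Fin n → M),
        S'.RelMap R s ↔ ∀ᶠ i in (U : Filter ℕ), S.RelMap R (fun j => r (s j) i)) ∧
      (∀ m m', (∀ᶠ i in (U : Filter ℕ), r m i = r m' i) → m = m') ∧
      (∀ n, ∀ᶠ i in (U : Filter ℕ), r (c n) i = n) ∧
      (∀ k m m', ∃ m'', ∀ᶠ i in (U : Filter ℕ), r m'' i = Z k (r m i) (r m' i)) ∧
      (∃ m, m ∉ range c ∧ ∀ i, r m i = f i) ∧
      ∀ m, m ∉ range c → t m ∉ range c ∧ t m ≠ m ∧ Sim S' (range c) m (t m) ∧
        ∀ᶠ i in (U : Filter ℕ), r (t m) i ≠ r m i ∧ r (t m) i ∈ range (r m)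

/-- UP1. -/
def S_UP1 : Prop :=
  ∀ (L : FirstOrder.Language.{0, 0}), Countable L.Symbols → L.IsRelational → ∀ (T : L.Theory), Goedel T →
    (∃ S : L.Structure ℕ, Mods S T) →
    ∃ (M : Type) (S : L.Structure M) (K : Set M) (t : Out K → Out K), Base T S K t

/-! ### Twins -/

section twins

variable {L : FirstOrder.Language.{0, 0}} {M : Type}

open Classical in
/-- The transposition of `x` and `y`. -/
noncomputable def sw (x y z : M) : M := if z = x then y else if z = y then x else z

/-- The transposition of `x` and `y` preserves `R`. -/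
def Tw (S : L.Structure M) {n : ℕ} (R : L.Relations n) (x y : M) : Prop :=
  ∀ s : Fin n → M, S.RelMap R (fun i => sw x y (s i)) ↔ S.RelMap R s

/-- Relation symbols with their arities. -/
abbrev Sym (L : FirstOrder.Language.{0, 0}) : Type := Σ n, L.Relations n

def TwF (S : L.Structure M) (F : Finset (Sym L)) (x y : M) : Prop := ∀ R ∈ F, Tw S R.2 x y

def TwA (S : L.Structure M) (x y : M) : Prop := ∀ R : Sym L, Tw S R.2 x y

/-- Finitely many classes of `Tw S R`. -/
def FinInd (S : L.Structure M) (R : Sym L) : Prop := ∃ D : Finset M, ∀ x, ∃ d ∈ D, Tw S R.2 x d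

/-- `x` is not isolated: no finite sublanguage suffices to determine its class of twins. -/
def NonIso (S : L.Structure M) (x : M) : Prop :=
  ∀ F : Finset (Sym L), ∃ y, TwF S F x y ∧ ¬ TwA S x y

end twins

/-- UP2. -/
def S_UP2 : Prop :=
  ∀ (L : FirstOrder.Language.{0, 0}), Countable L.Symbols → L.IsRelational → ∀ (T : L.Theory), Goedel T →
    ∀ (R : L.Relations 2) (S : L.Structure ℕ), Mods S T →
    (∃ x : ℕ → ℕ, ∀ i j, i ≠ j → ¬ Tw S R (x i) (x j)) →
    ∃ (M : Type) (S' : L.Structure M) (K : Set M) (t : Out K → Out K), Base T S' K t ∧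
      ∃ p p' q q' : Out K, Sim S' K p p' ∧ Sim S' K q q' ∧ p ≠ q ∧ p' ≠ q' ∧
        S'.RelMap R ![(p : M), (q : M)] ∧ ¬ S'.RelMap R ![(p' : M), (q' : M)]

/-! ### The free extension -/

/-- Points of the free extension outside `K`: planted points `y i`, and new points of the copies
of `M` over the pairs `u, v`, where `u, v` have the roles `m, m'` and the new point the role `z`. -/
inductive El (J : Type) : Type
  | y : ℕ → El J
  | new : El J → El J → J → J → J → El J

/-- A copy of `M` over `u, v` with the roles `m, m'`. -/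
structure Cp (J : Type) where
  u : El J
  v : El J
  m : J
  m' : J

/-- `Role q a z`: in the copy `q` the point `a` has the role `z`. -/
inductive Role {J : Type} (q : Cp J) : El J → J → Prop
  | left : Role q q.u q.m
  | right : Role q q.v q.m'
  | child (z : J) : z ≠ q.m → z ≠ q.m' → Role q (El.new q.u q.v q.m q.m' z) z

/-- `a` is one of the new points of the copy `q`. -/
def Child {J : Type} (q : Cp J) (a : El J) : Prop :=
  ∃ z, z ≠ q.m ∧ z ≠ q.m' ∧ a = El.new q.u q.v q.m q.m' z

/-- Types of points. -/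
def ty {J : Type} (tyY : ℕ → J) : El J → J
  | El.y i => tyY i
  | El.new _ _ _ _ z => z

section free

variable {L : FirstOrder.Language.{0, 0}} {M : Type}

/-- The data for planting: types of the planted points, types of pairs of planted points, values of
the relations at the tuples that are not determined by the copies, an order on the points. -/
structure Plan (L : FirstOrder.Language.{0, 0}) (K : Set M) where
  tyY : ℕ → Out K
  pY : ℕ → ℕ → Out K × Out K
  P : ∀ n, L.Relations n → (Fin n → K ⊕ El (Out K)) → Prop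
  lt : El (Out K) → El (Out K) → Prop

structure PlanOk (S : L.Structure M) (K : Set M) (pl : Plan L K) : Prop where
  swap : ∀ i j, i ≠ j → pl.pY j i = (pl.pY i j).swap
  ne : ∀ i j, i ≠ j → (pl.pY i j).1 ≠ (pl.pY i j).2
  sim : ∀ i j, i ≠ j → Sim S K (pl.pY i j).1 (pl.tyY i)
  tot : ∀ a b, a ≠ b → (pl.lt a b ↔ ¬ pl.lt b a)
  first : ∀ i u v m m' z, pl.lt (El.y i) (El.new u v m m' z)

/-- A copy whose roles fit the types. -/
structure Good (S : L.Structure M) {K : Set M} (pl : Plan L K) (q : Cp (Out K)) : Prop where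
  ne : q.u ≠ q.v
  ne' : q.m ≠ q.m'
  sim : Sim S K q.m ((ty pl.tyY q.u : Out K) : M)
  sim' : Sim S K q.m' ((ty pl.tyY q.v : Out K) : M)

open Classical in
/-- The pair of roles of a pair of points which is not in a copy. -/
noncomputable def pp {K : Set M} (pl : Plan L K) (t : Out K → Out K) :
    El (Out K) → El (Out K) → Out K × Out K
  | El.y i, El.y j => pl.pY i j
  | a, b => if ty pl.tyY a ≠ ty pl.tyY b then (ty pl.tyY a, ty pl.tyY b)
      else if pl.lt a b then (ty pl.tyY a, t (ty pl.tyY a)) else (t (ty pl.tyY a), ty pl.tyY a)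

/-- Replace the points outside `K` by their roles. -/
def ev {K : Set M} (ρ : El (Out K) → Out K) : K ⊕ El (Out K) → M :=
  Sum.elim Subtype.val (fun e => (ρ e : M))

/-- All points of `s` outside `K` are in the good copy `q`, and one of them is new there. -/
def InCopy (S : L.Structure M) {K : Set M} (pl : Plan L K) (q : Cp (Out K)) {n : ℕ}
    (s : Fin n → K ⊕ El (Out K)) : Prop :=
  Good S pl q ∧ (∃ i e, s i = Sum.inr e ∧ Child q e) ∧ ∀ i e, s i = Sum.inr e → ∃ z, Role q e z

/-- At most one point of `s` is outside `K`. -/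
def One {K : Set M} {n : ℕ} (s : Fin n → K ⊕ El (Out K)) : Prop :=
  ∀ i j e e', s i = Sum.inr e → s j = Sum.inr e' → e = e'

/-- The points of `s` outside `K` are `a` and `b`. -/
def Two {K : Set M} (a b : El (Out K)) {n : ℕ} (s : Fin n → K ⊕ El (Out K)) : Prop :=
  a ≠ b ∧ (∃ i, s i = Sum.inr a) ∧ (∃ i, s i = Sum.inr b) ∧ ∀ i e, s i = Sum.inr e → e = a ∨ e = b

open Classical in
/-- The relations of the free extension. -/
def RelN (S : L.Structure M) {K : Set M} (pl : Plan L K) (t : Out K → Out K) {n : ℕ}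
    (R : L.Relations n) (s : Fin n → K ⊕ El (Out K)) : Prop :=
  (∃ q, InCopy S pl q s ∧ ∃ ρ : El (Out K) → Out K, (∀ i e, s i = Sum.inr e → Role q e (ρ e)) ∧
    S.RelMap R (fun i => ev ρ (s i))) ∨
  ((¬ ∃ q, InCopy S pl q s) ∧
    ((One s ∧ S.RelMap R (fun i => ev (ty pl.tyY) (s i))) ∨
     (∃ a b, Two a b s ∧
        S.RelMap R (fun i => ev (fun e => if e = a then (pp pl t a b).1 else (pp pl t a b).2)
          (s i))) ∨
     (¬ One s ∧ (¬ ∃ a b, Two a b s) ∧ pl.P n R s)))

/-- The free extension. -/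
@[reducible] def NStr [L.IsRelational] (S : L.Structure M) {K : Set M} (pl : Plan L K)
    (t : Out K → Out K) : L.Structure (K ⊕ El (Out K)) where
  funMap := fun f => isEmptyElim f
  RelMap := fun R s => RelN S pl t R s

end free

/-- GEN. The free extension is a model. -/
def S_GEN : Prop :=
  ∀ (L : FirstOrder.Language.{0, 0}) [L.IsRelational] (T : L.Theory) (M : Type) (S : L.Structure M)
    (K : Set M) (t : Out K → Out K), Base T S K t →
    ∀ pl : Plan L K, PlanOk S K pl → Mods (NStr S pl t) T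

/-- F1. -/
def S_F1 : Prop :=
  ∀ (L : FirstOrder.Language.{0, 0}), Countable L.Symbols → L.IsRelational → ∀ (n : ℕ), 3 ≤ n →
    ∀ (_R : L.Relations n) (T : L.Theory) (M : Type) (S : L.Structure M) (K : Set M)
    (t : Out K → Out K), Base T S K t → PerfectFam T

/-- F2. -/
def S_F2 : Prop :=
  ∀ (L : FirstOrder.Language.{0, 0}), Countable L.Symbols → L.IsRelational → ∀ (T : L.Theory) (M : Type)
    (S : L.Structure M) (K : Set M) (t : Out K → Out K), Base T S K t →
    ∀ (R : L.Relations 2) (p p' q q' : Out K), Sim S K p p' → Sim S K q q' → p ≠ q → p' ≠ q' →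
      S.RelMap R ![(p : M), (q : M)] → ¬ S.RelMap R ![(p' : M), (q' : M)] → PerfectFam T

/-! ### Almost trivial structures -/

/-- SW. -/
def S_SW : Prop :=
  ∀ (L : FirstOrder.Language.{0, 0}) (M : Type) (S : L.Structure M) (n : ℕ) (R : L.Relations n),
    Equivalence (Tw S R) ∧
    ∀ s s' : Fin n → M, (∀ i j, s i = s j ↔ s' i = s' j) → (∀ i, Tw S R (s i) (s' i)) →
      (S.RelMap R s ↔ S.RelMap R s')

/-- An isomorphism for the relation symbols in `F`. -/
def FIso {L : FirstOrder.Language.{0, 0}} {M N : Type} (S : L.Structure M) (S' : L.Structure N)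
    (F : Finset (Sym L)) (e : M ≃ N) : Prop :=
  ∀ R ∈ F, ∀ s : Fin R.1 → M, S.RelMap R.2 s ↔ S'.RelMap R.2 (fun i => e (s i))

/-- FIN. -/
def S_FIN : Prop :=
  ∀ (L : FirstOrder.Language.{0, 0}), L.IsRelational → ∀ (T : L.Theory) (M N : Type) (S : L.Structure M)
    (S' : L.Structure N), (∀ F : Finset (Sym L), ∃ e : M ≃ N, FIso S S' F e) → Mods S T → Mods S' T

/-- AT1. -/
def S_AT1 : Prop :=
  ∀ (L : FirstOrder.Language.{0, 0}), Countable L.Symbols → L.IsRelational → ∀ (T : L.Theory)
    (S : L.Structure ℕ), Mods S T → (∀ R, FinInd S R) →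
    (∃ x : ℕ → ℕ, (∀ i, NonIso S (x i)) ∧ ∀ i j, i ≠ j → ¬ TwA S (x i) (x j)) → PerfectFam T

/-- AT2. -/
def S_AT2 : Prop :=
  ∀ (L : FirstOrder.Language.{0, 0}), Countable L.Symbols → L.IsRelational → ∀ (S S' : L.Structure ℕ),
    (∀ R, FinInd S R) → (∀ R, FinInd S' R) → ∀ (n : ℕ) (a a' : Fin n → ℕ),
    (∀ i j, i ≠ j → ¬ TwA S (a i) (a j)) → (∀ i j, i ≠ j → ¬ TwA S' (a' i) (a' j)) →
    (∀ x, NonIso S x → ∃ i, TwA S x (a i)) → (∀ x, NonIso S' x → ∃ i, TwA S' x (a' i)) →
    (∀ i, Set.encard {x | TwA S x (a i)} = Set.encard {x | TwA S' x (a' i)}) →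
    (∀ F : Finset (Sym L), ∃ e : ℕ ≃ ℕ, (∀ i, e (a i) = a' i) ∧ FIso S S' F e) → Isom S S'

/-- The space of codes of structures. -/
abbrev Code (L : FirstOrder.Language.{0, 0}) : Type := (Σ n, L.Relations n × (Fin n → ℕ)) → Bool

open Classical in
noncomputable def code {L : FirstOrder.Language.{0, 0}} (S : L.Structure ℕ) : Code L :=
  fun p => decide (S.RelMap p.2.1 p.2.2)

@[reducible] def str {L : FirstOrder.Language.{0, 0}} [L.IsRelational] (c : Code L) : L.Structure ℕ where
  funMap := fun f => isEmptyElim f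
  RelMap := fun {n} R s => c ⟨n, R, s⟩ = true

/-- MEA. -/
def S_MEA : Prop :=
  ∀ (L : FirstOrder.Language.{0, 0}) [L.IsRelational], Countable L.Symbols → ∀ T : L.Theory,
    MeasurableSet {c : Code L | Mods (str c) T}

/-- AT3. -/
def S_AT3 : Prop :=
  ∀ (L : FirstOrder.Language.{0, 0}), Countable L.Symbols → L.IsRelational →
    (∀ n, 3 ≤ n → IsEmpty (L.Relations n)) → ∀ n : ℕ,
    ∃ θ : Code L × (Fin n → ℕ) → (ℕ → Bool), Measurable θ ∧
      (∀ (S S' : L.Structure ℕ) (a a' : Fin n → ℕ) (e : ℕ ≃ ℕ), (∀ F, FIso S S' F e) →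
        (∀ i, e (a i) = a' i) → θ (code S, a) = θ (code S', a')) ∧
      ∀ (S S' : L.Structure ℕ) (a a' : Fin n → ℕ), (∀ R, FinInd S R) → (∀ R, FinInd S' R) →
        θ (code S, a) = θ (code S', a') →
        ∀ F : Finset (Sym L), ∃ e : ℕ ≃ ℕ, (∀ i, e (a i) = a' i) ∧ FIso S S' F e

/-- AT4. -/
def S_AT : Prop :=
  ∀ (L : FirstOrder.Language.{0, 0}), Countable L.Symbols → L.IsRelational →
    (∀ n, 3 ≤ n → IsEmpty (L.Relations n)) → ∀ T : L.Theory,
    (∀ S : L.Structure ℕ, Mods S T → ∀ R, FinInd S R) → Dich T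

/-- POS: the positive part. -/
def S_POS : Prop :=
  ∀ (L : FirstOrder.Language.{0, 0}), Countable L.Symbols → L.IsRelational → ∀ T : L.Theory, Goedel T → Dich T

end Pool.Agent.W921.VP
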