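import Pool.Agent.W921.VP.DefsC

set_option autoImplicit false

/-! Project VP, fourth part: a sharper form of the completeness theorem. -/

namespace Pool.Agent.W921.VP

open FirstOrder Set
open FirstOrder.Language (Theory BoundedFormula)

/-- SYN2: the axioms are sentences `∀∀∀` or `∀∀∃`. -/
def S_SYN2 : Prop :=
  ∀ (L : FirstOrder.Language.{0, 0}), L.IsRelational → ∀ (T : L.Theory),
    ∃ T' : (TL L).Theory, (∀ σ ∈ T', Pre 0 3 0 (σ : (TL L).BoundedFormula Empty 0) ∨
      Pre 0 2 1 (σ : (TL L).BoundedFormula Empty 0)) ∧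
      ∀ N : (TL L).Structure ℕ, Mods N T' ↔ Ax T N

/-- Vaught's conjecture for theories with axioms `∀∀∀` and `∀∀∃` in languages with unary and binary
relation symbols. -/
def VC3 : Prop :=
  ∀ (L : FirstOrder.Language.{0, 0}), Countable L.Symbols → L.IsRelational →
    (∀ n, n ≠ 1 → n ≠ 2 → IsEmpty (L.Relations n)) → ∀ T : L.Theory,
    (∀ σ ∈ T, Pre 0 3 0 (σ : L.BoundedFormula Empty 0) ∨ Pre 0 2 1 (σ : L.BoundedFormula Empty 0)) →
    Dich T

end Pool.Agent.W921.VP
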