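import Pool.Agent.W921.VP.Mart
import Pool.Agent.W345.VP.CC
import Pool.Agent.W345.VP.SM
import Pool.Agent.W345.VP.Ult
import Pool.Agent.W358.VP.UPB
import Pool.Agent.W108.VPUP1
import Pool.Agent.W762.VPUp2
import Pool.Agent.W405.VPUNQ
import Pool.Agent.W148.VPEMB
import Pool.Agent.W806.VPGEN
import Pool.Agent.W578.VPORD
import Pool.Agent.W636.VP.Fam
import Pool.Agent.W515.VP.F1
import Pool.Agent.W930.VPF2
import Pool.Agent.W839.VPFIN
import Pool.Agent.W311.VPRC
import Pool.Agent.W959.VPAT1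
import Pool.Agent.W902.VP.AT2
import Pool.Agent.W108.VPMEA
import Pool.Agent.W240.VPTWD
import Pool.Agent.W352.VPPR1
import Pool.Agent.W214.VP.Pr2
import Pool.Agent.W351.VP.Fot
import Pool.Agent.W756.VP.AT
import Pool.Agent.W240.VPTUP
import Pool.Agent.W583.VPDec
import Pool.Agent.W970.VPISO
import Pool.Agent.W753.VPTOP
import Pool.Agent.W613.VPNI
import Pool.Agent.W253.VP.Qu
import Pool.Agent.W803.VP.Siz
import Pool.Agent.W389.VPMAR
import Pool.Agent.W240.VPSYN
import Pool.Agent.W240.VPSYN2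

set_option autoImplicit false

/-! Project VP: all parts together. -/

namespace Pool.Agent.W921.VP.Final

open Pool.Agent.W921.VP

theorem sw : S_SW := Pool.Agent.W563.VPSW.task
theorem cc : S_CC := Pool.Agent.W345.VP.cc
theorem sm : S_SM := Pool.Agent.W345.VP.sm
theorem ult : S_ULT := Pool.Agent.W345.VP.ULT.ult
theorem upb : S_UPB := Pool.Agent.W358.VP.task
theorem up1 : S_UP1 := Pool.Agent.W108.VPUP1.task ult upb
theorem up2 : S_UP2 := Pool.Agent.W762.VPUp2.task ult upb
theorem unq : S_UNQ := Pool.Agent.W405.VPUNQ.task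
theorem emb : S_EMB := Pool.Agent.W148.VPEMB.task unq
theorem gen : S_GEN := Pool.Agent.W806.VPGEN.task emb
theorem fam : S_FAM := Pool.Agent.W636.VP.task gen cc Pool.Agent.W578.VPORD.ctb
theorem f1 : S_F1 := Pool.Agent.W515.VP.task fam Pool.Agent.W578.VPORD.ord
theorem f2 : S_F2 := Pool.Agent.W930.VPF2.task fam Pool.Agent.W578.VPORD.ord
theorem fin : S_FIN := Pool.Agent.W839.VPFIN.task
theorem rc : S_RC := Pool.Agent.W311.VPRC.task sw
theorem at1 : S_AT1 := Pool.Agent.W959.VPAT1.task sw fin rc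
theorem at2 : S_AT2 := Pool.Agent.W902.VP.task sw
theorem mea : S_MEA := Pool.Agent.W108.VPMEA.task
theorem twd : S_TWD := Pool.Agent.W240.VPTWD.task
theorem pr1 : S_PR1 := Pool.Agent.W352.VPPR1.task sw
theorem pr2 : S_PR2 := Pool.Agent.W214.VP.task twd
theorem fot : S_FOT := Pool.Agent.W351.VP.fot pr1 pr2
theorem at3 : S_AT3 := Pool.Agent.W351.VP.at3 fot
theorem at4 : S_AT := Pool.Agent.W756.VP.AT.at_main sm cc at1 at2 at3 mea sw
theorem pos : S_POS := Pool.Agent.W921.VP.pos up1 up2 f1 f2 at4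
theorem ni : S_NI := Pool.Agent.W613.VPNI.task twd
theorem qu : S_QU := Pool.Agent.W253.VP.task sw fot
theorem siz : S_SIZ := Pool.Agent.W803.VPSiz.task sw twd ni qu
theorem mar : S_MAR := Pool.Agent.W389.VPMAR.task sw at2 fot ni siz
theorem tup : S_TUP := Pool.Agent.W240.VPTUP.task
theorem dec : S_DEC := Pool.Agent.W583.VPDec.task
theorem iso : S_ISO := Pool.Agent.W970.VPISO.task dec
theorem top : S_TOP := Pool.Agent.W753.VPTOP.task sm dec iso
theorem com : S_COM := Pool.Agent.W921.VP.com Pool.Agent.W240.VPSYN.task tup dec iso top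

theorem martin {L : FirstOrder.Language.{0, 0}} (hL : Countable L.Symbols) (hr : L.IsRelational)
    (T : L.Theory) (hc : T.IsComplete) (hT : Goedel T) (hfew : Few T) : Martin T :=
  Pool.Agent.W921.VP.martin up1 up2 f1 f2 at1 mar hL hr T hc hT hfew

end Pool.Agent.W921.VP.Final
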