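import Pool.Agent.W921.VP.Pos
import Pool.Agent.W921.VP.Com
import Pool.Agent.W921.VP.DefsC
import Pool.Agent.W563.VPSW

set_option autoImplicit false

/-! The conjecture of Martin for the Gödel class. -/

namespace Pool.Agent.W921.VP

open FirstOrder Set
open FirstOrder.Language (BoundedFormula)

section

variable {L : FirstOrder.Language.{0, 0}}

theorem not_perfect {T : L.Theory} (h : Few T) : ¬ PerfectFam T := by
  rintro ⟨f, h1, h2, -⟩
  exact h ⟨f, h1, h2⟩

/-- All relations of all models are almost trivial. -/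
theorem finInd_all (h1 : S_UP1) (h2 : S_UP2) (h3 : S_F1) (h4 : S_F2) (hL : Countable L.Symbols)
    (hr : L.IsRelational) {T : L.Theory} (hT : Goedel T) (hp : ¬ PerfectFam T) :
    ∀ S : L.Structure ℕ, Mods S T → ∀ R, FinInd S R := by
  classical
  intro S hS
  rintro ⟨n, R⟩
  by_contra hR
  have hn : n < 3 := by
    by_contra hn
    exact hp (base_of_model h1 h3 L hL hr T hT ⟨S, hS⟩ n (not_lt.1 hn) R)
  obtain rfl : n = 2 := by
    interval_cases n
    · exact absurd (finInd_nullary S R) hR
    · exact absurd (finInd_unary S R) hR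
    · rfl
  obtain ⟨x, hx⟩ := seq_of_not_finInd S R hR
  have hx2 : ∀ i j, i ≠ j → ¬ Tw S R (x i) (x j) := by
    intro i j hij
    rcases lt_or_gt_of_ne hij with h | h
    · exact fun h' => hx i j h (tw_symm h')
    · exact hx j i h
  obtain ⟨M, S', K, t, hb, p, p', q, q', hp', hq, hpq, hpq', hR1, hR2⟩ :=
    h2 L hL hr T hT R S hS ⟨x, hx2⟩
  exact hp (h4 L hL hr T M S' K t hb R p p' q q' hp' hq hpq hpq' hR1 hR2)

theorem twA_symm {M : Type} {S : L.Structure M} {x y : M} (h : TwA S x y) : TwA S y x :=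
  fun R => tw_symm (h R)

/-- Representatives of the non-isolated points. -/
theorem reps (h6 : S_AT1) (hL : Countable L.Symbols)
    (hr : L.IsRelational) {T : L.Theory} (hp : ¬ PerfectFam T) {S : L.Structure ℕ} (hS : Mods S T)
    (hf : ∀ R, FinInd S R) : ∃ (n : ℕ) (a : Fin n → ℕ), (∀ i, NonIso S (a i)) ∧
      (∀ i j, i ≠ j → ¬ TwA S (a i) (a j)) ∧ ∀ x, NonIso S x → ∃ i, TwA S x (a i) := by
  classical
  have h1 : ∃ n : ℕ, ∃ D : Finset ℕ, D.card = n ∧ (∀ d ∈ D, NonIso S d) ∧
      ∀ x, NonIso S x → ∃ d ∈ D, TwA S x d := by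
    by_contra hD
    push Not at hD
    have h1 : ∀ D : Finset ℕ, (∀ d ∈ D, NonIso S d) → ∃ x, NonIso S x ∧ ∀ d ∈ D, ¬ TwA S x d :=
      fun D h => hD D.card D rfl h
    let W : Type := {D : Finset ℕ // ∀ d ∈ D, NonIso S d}
    choose g hg1 hg2 using fun D : W => h1 D.1 D.2
    let F : ℕ → W := fun k => Nat.rec ⟨∅, by simp⟩ (fun _ D => ⟨insert (g D) D.1, by
      intro d hd
      rcases Finset.mem_insert.1 hd with rfl | hd
      · exact hg1 D
      · exact D.2 d hd⟩) k
    have hF : ∀ k, (F (k + 1)).1 = insert (g (F k)) (F k).1 := fun k => rfl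
    have hm : ∀ k l, k ≤ l → (F k).1 ⊆ (F l).1 := by
      intro k l hkl
      induction l, hkl using Nat.le_induction with
      | base => exact Finset.Subset.refl _
      | succ l _ ih => rw [hF]; exact ih.trans (Finset.subset_insert _ _)
    have hx : ∀ i j, i < j → ¬ TwA S (g (F j)) (g (F i)) := by
      intro i j hij
      refine hg2 (F j) _ ?_
      apply hm (i + 1) j hij
      rw [hF]
      exact Finset.mem_insert_self _ _
    refine hp (h6 L hL hr T S hS hf ⟨fun k => g (F k), fun k => hg1 _, fun i j hij => ?_⟩)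
    rcases lt_or_gt_of_ne hij with h | h
    · exact fun h' => hx i j h (twA_symm h')
    · exact hx j i h
  obtain ⟨D, hD1, hD2, hD3⟩ := Nat.find_spec h1
  have hD4 : ∀ d ∈ D, ∀ d' ∈ D, d ≠ d' → ¬ TwA S d d' := by
    intro d hd d' hd' hne htw
    refine Nat.find_min h1 (m := (D.erase d).card) ?_ ⟨D.erase d, rfl, ?_, ?_⟩
    · rw [← hD1]
      exact Finset.card_erase_lt_of_mem hd
    · exact fun x hx => hD2 x (Finset.mem_of_mem_erase hx)
    · intro x hx
      obtain ⟨z, hz, hxz⟩ := hD3 x hx
      by_cases hzd : z = d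
      · subst hzd
        refine ⟨d', Finset.mem_erase.2 ⟨fun h => hne h.symm, hd'⟩, ?_⟩
        -- transitivity
        intro R
        exact Pool.Agent.W563.VPSW.tw_trans S R.2 (hxz R) (htw R)
      · exact ⟨z, Finset.mem_erase.2 ⟨hzd, hz⟩, hxz⟩
  refine ⟨D.card, fun i => (D.equivFin.symm i : D), fun i => hD2 _ (D.equivFin.symm i).2,
    fun i j hij => ?_, fun x hx => ?_⟩
  · refine hD4 _ (D.equivFin.symm i).2 _ (D.equivFin.symm j).2 fun h => hij ?_
    exact D.equivFin.symm.injective (Subtype.ext h)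
  · obtain ⟨d, hd, hxd⟩ := hD3 x hx
    refine ⟨D.equivFin ⟨d, hd⟩, ?_⟩
    show TwA S x (D.equivFin.symm (D.equivFin ⟨d, hd⟩) : D)
    rw [Equiv.symm_apply_apply]
    exact hxd

/-- Isomorphisms preserve first-order formulas. -/
theorem realize_iso {M N : Type} (hr : L.IsRelational) {S : L.Structure M} {S' : L.Structure N}
    (e : M ≃ N) (he : ∀ (n : ℕ) (R : L.Relations n) (s : Fin n → M),
      S.RelMap R s ↔ S'.RelMap R (fun i => e (s i))) {n : ℕ} (φ : L.BoundedFormula Empty n)
    (a : Fin n → M) :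
    @BoundedFormula.Realize L M S Empty n φ Empty.elim a ↔
      @BoundedFormula.Realize L N S' Empty n φ Empty.elim (fun i => e (a i)) := by
  let g : @FirstOrder.Language.Equiv L M N S S' :=
    { toEquiv := e
      map_fun' := fun f => isEmptyElim f
      map_rel' := fun R s => (he _ R s).symm }
  have h1 := @FirstOrder.Language.StrongHomClass.realize_boundedFormula L M N S S' Empty n
    (@FirstOrder.Language.Equiv L M N S S') _ _ g φ Empty.elim a
  have h2 : (g ∘ Empty.elim : Empty → N) = Empty.elim := funext fun x => x.elim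
  rw [h2] at h1
  exact h1.symm

theorem fm_iso {M N : Type} (hr : L.IsRelational) {T : L.Theory} {S : L.Structure M}
    {S' : L.Structure N}
    (e : M ≃ N) (he : ∀ (n : ℕ) (R : L.Relations n) (s : Fin n → M),
      S.RelMap R s ↔ S'.RelMap R (fun i => e (s i))) {n : ℕ} (φ : Fm T n) :
    ∀ (a : Fin n → M), φ.Sat S a ↔ φ.Sat S' (fun i => e (a i)) := by
  induction φ with
  | fo φ => intro a; exact realize_iso hr e he φ a
  | tp p hp v =>
    intro a
    exact forall_congr' fun φ => imp_congr Iff.rfl (realize_iso hr e he φ fun i => a (v i))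
  | not φ ih => intro a; exact not_congr (ih a)
  | and φ ψ ih1 ih2 => intro a; exact and_congr (ih1 a) (ih2 a)
  | all φ ih =>
    intro a
    have h1 : ∀ x, (fun i => e ((Fin.snoc a x : Fin (_ + 1) → M) i)) =
        (Fin.snoc (fun i => e (a i)) (e x) : Fin (_ + 1) → N) := by
      intro x
      funext i
      refine Fin.lastCases ?_ (fun j => ?_) i
      · simp
      · simp
    constructor
    · intro h y
      have := (ih (Fin.snoc a (e.symm y))).1 (h (e.symm y))
      rw [h1, e.apply_symm_apply] at this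
      exact this
    · intro h x
      refine (ih (Fin.snoc a x)).2 ?_
      rw [h1]
      exact h (e x)

theorem sent_iff {M : Type} (S : L.Structure M) (φ : L.Sentence) (a : Fin 0 → M) :
    @BoundedFormula.Realize L M S Empty 0 φ Empty.elim a ↔
      @FirstOrder.Language.Sentence.Realize L M S φ := by
  have h1 : (Empty.elim : Empty → M) = default := Subsingleton.elim _ _
  have h2 : a = default := Subsingleton.elim _ _
  rw [h1, h2]
  exact Iff.rfl

theorem martin (h1 : S_UP1) (h2 : S_UP2) (h3 : S_F1) (h4 : S_F2) (h6 : S_AT1) (hm : S_MAR)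
    (hL : Countable L.Symbols) (hr : L.IsRelational) (T : L.Theory) (hc : T.IsComplete)
    (hT : Goedel T) (hfew : Few T) : Martin T := by
  classical
  have hp := not_perfect hfew
  have hf := finInd_all h1 h2 h3 h4 hL hr hT hp
  have hsame : ∀ S S' : L.Structure ℕ, Mods S T → Mods S' T → ∀ φ : L.Sentence,
      @FirstOrder.Language.Sentence.Realize L ℕ S φ →
      @FirstOrder.Language.Sentence.Realize L ℕ S' φ := by
    intro S S' hS hS' φ h
    rcases hc.2 φ with h5 | h5
    · exact @FirstOrder.Language.Theory.models_sentence_iff L T φ |>.1 h5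
        (@FirstOrder.Language.Theory.ModelType.of L T ℕ S' hS' _)
    · have := @FirstOrder.Language.Theory.models_sentence_iff L T (FirstOrder.Language.Formula.not φ) |>.1 h5
        (@FirstOrder.Language.Theory.ModelType.of L T ℕ S hS _)
      exact absurd h this
  intro M S S' hM hS' hE
  -- `M` is infinite
  have hMinf : Infinite M := by
    by_contra hfin
    rw [not_infinite_iff_finite] at hfin
    have h7 : ∀ n : ℕ, (n : Cardinal) ≤ Cardinal.mk M := by
      intro n
      have h8 := (hE (Fm.fo (FirstOrder.Language.Sentence.cardGe L n))).2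
      have h9 : @FirstOrder.Language.Sentence.Realize L ℕ S'
          (FirstOrder.Language.Sentence.cardGe L n) :=
        (@FirstOrder.Language.Sentence.realize_cardGe L ℕ S' n).2 (by
          rw [Cardinal.mk_nat]
          exact Cardinal.natCast_lt_aleph0.le)
      have h10 := h8 ((sent_iff S' _ _).2 h9)
      exact (@FirstOrder.Language.Sentence.realize_cardGe L M S n).1 ((sent_iff S _ _).1 h10)
    have h8 := h7 (Nat.card M + 1)
    have h9 : Cardinal.mk M = (Nat.card M : Cardinal) := by
      rw [Nat.cast_card]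
    rw [h9] at h8
    have h10 : Nat.card M + 1 ≤ Nat.card M := by exact_mod_cast h8
    omega
  obtain ⟨e⟩ : Nonempty (M ≃ ℕ) := nonempty_equiv_of_countable
  have hmv := isom_move S e
  refine hmv.trans ?_
  have hE' : Eq1 T (Pool.Agent.W921.VP.move S e) S' := by
    intro φ
    rw [← hE φ, fm_iso hr e (fun n R s => move_rel S e n R s) φ Fin.elim0]
    exact iff_of_eq (congrArg _ (Subsingleton.elim _ _))
  have hmod : Mods (Pool.Agent.W921.VP.move S e) T := by
    have h8 : ∀ φ ∈ T, @FirstOrder.Language.Sentence.Realize L ℕ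
        (Pool.Agent.W921.VP.move S e) φ := by
      intro φ hφ
      have h9 : @FirstOrder.Language.Sentence.Realize L ℕ S' φ :=
        @FirstOrder.Language.Theory.realize_sentence_of_mem L ℕ S' T hS' φ hφ
      exact (sent_iff _ _ _).1 ((hE' (Fm.fo φ)).2 ((sent_iff S' _ _).2 h9))
    exact (@FirstOrder.Language.Theory.model_iff L ℕ (Pool.Agent.W921.VP.move S e) T).2 h8
  refine hm L hL hr T ?_ hf (fun S hS => reps h6 hL hr hp hS (hf S hS)) _ S' hmod hS' hE'
  intro S1 S2 hS1 hS2 φ
  exact (sent_iff S1 φ _).trans (Iff.trans ⟨hsame S1 S2 hS1 hS2 φ, hsame S2 S1 hS2 hS1 φ⟩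
    (sent_iff S2 φ _).symm)

end

end Pool.Agent.W921.VP
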