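import Pool.Agent.W921.VP.Defs

set_option autoImplicit false

/-! POS: assembly of the positive part. -/

namespace Pool.Agent.W921.VP

open FirstOrder Set

theorem tw_nullary {L : FirstOrder.Language.{0, 0}} {M : Type} (S : L.Structure M)
    (R : L.Relations 0) (x y : M) : Tw S R x y := by
  intro s
  have : (fun i => sw x y (s i)) = s := Subsingleton.elim _ _
  rw [this]

theorem tw_unary {L : FirstOrder.Language.{0, 0}} {M : Type} (S : L.Structure M)
    (R : L.Relations 1) (x y : M) (h : S.RelMap R ![x] ↔ S.RelMap R ![y]) : Tw S R x y := by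
  intro s
  have hs : s = ![s 0] := by
    funext i
    have : i = 0 := Subsingleton.elim _ _
    subst this
    rfl
  have hs2 : (fun i => sw x y (s i)) = ![sw x y (s 0)] := by
    funext i
    have : i = 0 := Subsingleton.elim _ _
    subst this
    rfl
  rw [hs2, hs]
  show S.RelMap R ![sw x y (s 0)] ↔ S.RelMap R ![s 0]
  unfold sw
  split_ifs with h1 h2
  · rw [h1]; exact h.symm
  · rw [h2]; exact h
  · exact Iff.rfl

theorem finInd_nullary {L : FirstOrder.Language.{0, 0}} (S : L.Structure ℕ)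
    (R : L.Relations 0) : FinInd S ⟨0, R⟩ :=
  ⟨{0}, fun x => ⟨0, by simp, tw_nullary S R x 0⟩⟩

theorem finInd_unary {L : FirstOrder.Language.{0, 0}} (S : L.Structure ℕ)
    (R : L.Relations 1) : FinInd S ⟨1, R⟩ := by
  classical
  by_cases h1 : ∃ x, S.RelMap R ![x]
  · by_cases h2 : ∃ x, ¬ S.RelMap R ![x]
    · obtain ⟨x1, h1⟩ := h1
      obtain ⟨x2, h2⟩ := h2
      refine ⟨{x1, x2}, fun x => ?_⟩
      by_cases h : S.RelMap R ![x]
      · exact ⟨x1, by simp, tw_unary S R _ _ ⟨fun _ => h1, fun _ => h⟩⟩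
      · exact ⟨x2, by simp, tw_unary S R _ _ ⟨fun h' => absurd h' h, fun h' => absurd h' h2⟩⟩
    · have h2' : ∀ x, S.RelMap R ![x] := fun x => by
        by_contra h; exact h2 ⟨x, h⟩
      exact ⟨{0}, fun x => ⟨0, by simp, tw_unary S R _ _ ⟨fun _ => h2' _, fun _ => h2' _⟩⟩⟩
  · have h1' : ∀ x, ¬ S.RelMap R ![x] := fun x h => h1 ⟨x, h⟩
    exact ⟨{0}, fun x => ⟨0, by simp, tw_unary S R _ _ ⟨fun h => absurd h (h1' _),
      fun h => absurd h (h1' _)⟩⟩⟩

/-- An infinite sequence of pairwise non-twins. -/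
theorem seq_of_not_finInd {L : FirstOrder.Language.{0, 0}} (S : L.Structure ℕ) {n : ℕ}
    (R : L.Relations n) (h : ¬ FinInd S ⟨n, R⟩) :
    ∃ x : ℕ → ℕ, ∀ i j, i < j → ¬ Tw S R (x j) (x i) := by
  classical
  have h1 : ∀ D : Finset ℕ, ∃ x, ∀ d ∈ D, ¬ Tw S R x d := by
    intro D
    by_contra hD
    push Not at hD
    exact h ⟨D, hD⟩
  choose g hg using h1
  let F : ℕ → Finset ℕ := fun k => Nat.rec ∅ (fun _ D => insert (g D) D) k
  have hF : ∀ k, F (k + 1) = insert (g (F k)) (F k) := fun k => rfl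
  have hm : ∀ k l, k ≤ l → F k ⊆ F l := by
    intro k l hkl
    induction l, hkl using Nat.le_induction with
    | base => exact Finset.Subset.refl _
    | succ l _ ih => rw [hF]; exact ih.trans (Finset.subset_insert _ _)
  refine ⟨fun k => g (F k), fun i j hij => ?_⟩
  refine hg (F j) _ ?_
  apply hm (i + 1) j hij
  rw [hF]
  exact Finset.mem_insert_self _ _

theorem tw_symm {L : FirstOrder.Language.{0, 0}} {M : Type} {S : L.Structure M} {n : ℕ}
    {R : L.Relations n} {x y : M} (h : Tw S R x y) : Tw S R y x := by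
  have h1 : ∀ z, sw y x z = sw x y z := by
    intro z
    unfold sw
    split_ifs with h1 h2 h2 <;> simp_all
  intro s
  have h2 : (fun i => sw y x (s i)) = fun i => sw x y (s i) := funext fun i => h1 _
  rw [h2]
  exact h s

theorem base_of_model (h1 : S_UP1) (h3 : S_F1) (L : FirstOrder.Language.{0, 0})
    (hL : Countable L.Symbols) (hr : L.IsRelational) (T : L.Theory) (hT : Goedel T)
    (hS : ∃ S : L.Structure ℕ, Mods S T) (n : ℕ) (hn : 3 ≤ n) (R : L.Relations n) :
    PerfectFam T := by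
  obtain ⟨M, S, K, t, hb⟩ := h1 L hL hr T hT hS
  exact h3 L hL hr n hn R T M S K t hb

theorem pos (h1 : S_UP1) (h2 : S_UP2) (h3 : S_F1) (h4 : S_F2) (h5 : S_AT) : S_POS := by
  classical
  intro L hL hr T hT
  by_cases hS : ∃ S : L.Structure ℕ, Mods S T
  · by_cases ha : ∀ n, 3 ≤ n → IsEmpty (L.Relations n)
    · by_cases hf : ∀ S : L.Structure ℕ, Mods S T → ∀ R, FinInd S R
      · exact h5 L hL hr ha T hf
      · push Not at hf
        obtain ⟨S, hS, ⟨n, R⟩, hR⟩ := hf
        have hn : n < 3 := by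
          by_contra hn
          exact (ha n (not_lt.1 hn)).false R
        obtain rfl : n = 2 := by
          interval_cases n
          · exact absurd (finInd_nullary S R) hR
          · exact absurd (finInd_unary S R) hR
          · rfl
        obtain ⟨x, hx⟩ := seq_of_not_finInd S R hR
        have hx2 : ∀ i j, i ≠ j → ¬ Tw S R (x i) (x j) := by
          intro i j hij
          rcases lt_or_gt_of_ne hij with h | h
          · exact fun h' => hx i j h (tw_symm h')
          · exact hx j i h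
        obtain ⟨M, S', K, t, hb, p, p', q, q', hp, hq, hpq, hpq', hR1, hR2⟩ :=
          h2 L hL hr T hT R S hS ⟨x, hx2⟩
        exact Or.inr (h4 L hL hr T M S' K t hb R p p' q q' hp hq hpq hpq' hR1 hR2)
    · push Not at ha
      obtain ⟨n, hn, hR⟩ := ha
      obtain ⟨R⟩ := hR
      exact Or.inr (base_of_model h1 h3 L hL hr T hT hS n hn R)
  · left
    by_cases hne : Nonempty (L.Structure ℕ)
    · obtain ⟨S0⟩ := hne
      exact ⟨fun _ => S0, fun S hS' => absurd ⟨S, hS'⟩ hS⟩
    · exact absurd ⟨⟨fun f => isEmptyElim f, fun _ _ => False⟩⟩ hne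

end Pool.Agent.W921.VP
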